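import Mathlib

/-!
# Rationalization of groups is not conditionally flat

`Rat G` is the rationalization of the group `G`: the universal group receiving a homomorphism from
`G` in which `x ↦ x ^ p` is bijective for every prime `p`.  We exhibit an extension
`1 → ℂ → E → ℚ → 1` of local groups (so it is flat) whose pullback along `ℤ → ℚ` is not flat.
Here `E = ℂ ⋊ ℚ`, where `q` acts as multiplication by `exp (q log 2)`.  The pullback `ℂ ⋊ ℤ`
also embeds in the local group `ℂ ⋊ ℚ` where `q` acts by `exp (q (log 2 + 2 π i))`.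
-/

set_option autoImplicit false

namespace Pool.Agent.Results.MP_a437dc_al.NotConditionallyFlat

universe u

/-- A group is local if `x ↦ x ^ p` is a bijection for every prime `p`. -/
def IsLocal (T : Type u) [Group T] : Prop :=
  ∀ p : ℕ, p.Prime → Function.Bijective (fun x : T => x ^ p)

/-- Formal expressions in elements of `G`, the group operations and `p`-th roots. -/
inductive Pre (G : Type u) : Type u
  | of (g : G) : Pre G
  | one : Pre G
  | mul (a b : Pre G) : Pre G
  | inv (a : Pre G) : Pre G
  | root (p : Nat.Primes) (a : Pre G) : Pre G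

/-- The formal `n`-th power of an expression. -/
def Pre.pow {G : Type u} (a : Pre G) : ℕ → Pre G
  | 0 => Pre.one
  | n + 1 => Pre.mul (Pre.pow a n) a

/-- The congruence generated by the group axioms, the relations of `G`, and the relations which say
that `root p` is inverse to the `p`-th power. -/
inductive Rel (G : Type u) [Group G] : Pre G → Pre G → Prop
  | refl (a : Pre G) : Rel G a a
  | symm {a b : Pre G} : Rel G a b → Rel G b a
  | trans {a b c : Pre G} : Rel G a b → Rel G b c → Rel G a c
  | mul_congr {a a' b b' : Pre G} : Rel G a a' → Rel G b b' → Rel G (a.mul b) (a'.mul b')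
  | inv_congr {a a' : Pre G} : Rel G a a' → Rel G a.inv a'.inv
  | root_congr (p : Nat.Primes) {a a' : Pre G} : Rel G a a' → Rel G (a.root p) (a'.root p)
  | mul_assoc (a b c : Pre G) : Rel G ((a.mul b).mul c) (a.mul (b.mul c))
  | one_mul (a : Pre G) : Rel G (Pre.one.mul a) a
  | mul_one (a : Pre G) : Rel G (a.mul Pre.one) a
  | inv_mul (a : Pre G) : Rel G (a.inv.mul a) Pre.one
  | of_mul (g h : G) : Rel G (Pre.of (g * h)) ((Pre.of g).mul (Pre.of h))
  | root_pow (p : Nat.Primes) (a : Pre G) : Rel G ((a.root p).pow p) a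
  | pow_root (p : Nat.Primes) (a : Pre G) : Rel G ((a.pow p).root p) a

/-- The equivalence relation `Rel G` as a setoid. -/
def preSetoid (G : Type u) [Group G] : Setoid (Pre G) :=
  ⟨Rel G, ⟨Rel.refl, Rel.symm, Rel.trans⟩⟩

/-- The rationalization of the group `G`. -/
def Rat (G : Type u) [Group G] : Type u := Quotient (preSetoid G)

namespace Rat

variable {G : Type u} [Group G]

instance : Group (Rat G) where
  mul := Quotient.map₂ Pre.mul fun _ _ h _ _ h' => Rel.mul_congr h h'
  one := Quotient.mk _ Pre.one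
  inv := Quotient.map Pre.inv fun _ _ h => Rel.inv_congr h
  mul_assoc := by
    rintro ⟨a⟩ ⟨b⟩ ⟨c⟩; exact Quotient.sound (Rel.mul_assoc a b c)
  one_mul := by rintro ⟨a⟩; exact Quotient.sound (Rel.one_mul a)
  mul_one := by rintro ⟨a⟩; exact Quotient.sound (Rel.mul_one a)
  inv_mul_cancel := by rintro ⟨a⟩; exact Quotient.sound (Rel.inv_mul a)

/-- The class of an expression. -/
def mk (a : Pre G) : Rat G := Quotient.mk (preSetoid G) a

theorem mk_mul (a b : Pre G) : mk (a.mul b) = mk a * mk b := rfl

theorem mk_one : mk (Pre.one : Pre G) = 1 := rfl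

theorem mk_inv (a : Pre G) : mk a.inv = (mk a)⁻¹ := rfl

theorem mk_pow (a : Pre G) (n : ℕ) : mk (a.pow n) = mk a ^ n := by
  induction n with
  | zero => rw [pow_zero]; rfl
  | succ n ih => rw [pow_succ, ← ih]; rfl

/-- The `p`-th root. -/
def root (p : Nat.Primes) : Rat G → Rat G :=
  Quotient.map (Pre.root p) fun _ _ h => Rel.root_congr p h

theorem root_mk (p : Nat.Primes) (a : Pre G) : root p (mk a) = mk (a.root p) := rfl

theorem root_pow (p : Nat.Primes) (x : Rat G) : root p x ^ (p : ℕ) = x := by
  induction x using Quotient.inductionOn with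
  | h a =>
    change root p (mk a) ^ (p : ℕ) = mk a
    rw [root_mk, ← mk_pow]; exact Quotient.sound (Rel.root_pow p a)

theorem pow_root (p : Nat.Primes) (x : Rat G) : root p (x ^ (p : ℕ)) = x := by
  induction x using Quotient.inductionOn with
  | h a =>
    change root p (mk a ^ (p : ℕ)) = mk a
    rw [← mk_pow, root_mk]; exact Quotient.sound (Rel.pow_root p a)

/-- The rationalization is a local group. -/
theorem isLocal : IsLocal (Rat G) := fun p hp =>
  Function.bijective_iff_has_inverse.2
    ⟨root ⟨p, hp⟩, fun x => pow_root ⟨p, hp⟩ x, fun x => root_pow ⟨p, hp⟩ x⟩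

/-- The canonical homomorphism `η : G → Rat G`. -/
def of : G →* Rat G :=
  MonoidHom.mk' (fun g => mk (Pre.of g)) fun g h => Quotient.sound (Rel.of_mul g h)

variable {T : Type u} [Group T]

/-- Evaluation of expressions in a local group. -/
noncomputable def eval (hT : IsLocal T) (f : G →* T) : Pre G → T
  | .of g => f g
  | .one => 1
  | .mul a b => eval hT f a * eval hT f b
  | .inv a => (eval hT f a)⁻¹
  | .root p a => Function.surjInv (hT p p.2).2 (eval hT f a)

theorem eval_pow (hT : IsLocal T) (f : G →* T) (a : Pre G) (n : ℕ) :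
    eval hT f (a.pow n) = eval hT f a ^ n := by
  induction n with
  | zero => rw [pow_zero]; rfl
  | succ n ih => rw [pow_succ, ← ih]; rfl

theorem eval_rel (hT : IsLocal T) (f : G →* T) {a b : Pre G} (h : Rel G a b) :
    eval hT f a = eval hT f b := by
  induction h with
  | refl a => rfl
  | symm _ ih => exact ih.symm
  | trans _ _ ih ih' => exact ih.trans ih'
  | mul_congr _ _ ih ih' => simp only [eval, ih, ih']
  | inv_congr _ ih => simp only [eval, ih]
  | root_congr p _ ih => simp only [eval, ih]
  | mul_assoc a b c => simp only [eval, _root_.mul_assoc]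
  | one_mul a => simp only [eval, _root_.one_mul]
  | mul_one a => simp only [eval, _root_.mul_one]
  | inv_mul a => simp only [eval, inv_mul_cancel]
  | of_mul g h => simp only [eval, map_mul]
  | root_pow p a =>
    rw [eval_pow]
    exact Function.surjInv_eq (hT p p.2).2 (eval hT f a)
  | pow_root p a =>
    apply (hT p p.2).1
    have h1 : (eval hT f ((a.pow p).root p)) ^ (p : ℕ) = eval hT f (a.pow p) :=
      Function.surjInv_eq (hT p p.2).2 (eval hT f (a.pow p))
    exact h1.trans (eval_pow hT f a p)

/-- The extension of a homomorphism to a local group. -/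
noncomputable def lift (hT : IsLocal T) (f : G →* T) : Rat G →* T :=
  MonoidHom.mk' (Quotient.lift (eval hT f) fun _ _ h => eval_rel hT f h) <| by
    rintro ⟨a⟩ ⟨b⟩; rfl

theorem lift_of (hT : IsLocal T) (f : G →* T) (g : G) : lift hT f (of g) = f g := rfl

/-- Two homomorphisms from `Rat G` to a local group which agree on `G` are equal. -/
theorem hom_ext (hT : IsLocal T) {f g : Rat G →* T} (h : f.comp of = g.comp of) : f = g := by
  ext x
  induction x using Quotient.inductionOn with
  | h a =>
    change f (mk a) = g (mk a)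
    induction a with
    | of a => exact DFunLike.congr_fun h a
    | one => rw [mk_one, map_one, map_one]
    | mul a b iha ihb => rw [mk_mul, map_mul, map_mul, iha, ihb]
    | inv a ih => rw [mk_inv, map_inv, map_inv, ih]
    | root p a ih =>
      apply (hT p p.2).1
      change f (mk (a.root p)) ^ (p : ℕ) = g (mk (a.root p)) ^ (p : ℕ)
      rw [← map_pow, ← map_pow, ← root_mk, root_pow, ih]

/-- The universal property: `Rat G` is local and every homomorphism from `G` to a local group
factors uniquely through `G → Rat G`. -/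
theorem universal (hT : IsLocal T) (f : G →* T) : ∃! g : Rat G →* T, g.comp of = f :=
  ⟨lift hT f, MonoidHom.ext fun _ => rfl, fun _ hg =>
    hom_ext hT (hg.trans (MonoidHom.ext fun _ => rfl))⟩

variable {H : Type u} [Group H]

/-- Functoriality of the rationalization. -/
noncomputable def map (f : G →* H) : Rat G →* Rat H := lift isLocal (of.comp f)

theorem map_of (f : G →* H) (g : G) : map f (of g) = of (f g) := rfl

/-- For local groups `G → Rat G` is an isomorphism. -/
theorem of_bijective (hG : IsLocal G) : Function.Bijective (of : G →* Rat G) := by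
  have h1 : (lift hG (MonoidHom.id G)).comp of = MonoidHom.id G := rfl
  have h2 : of.comp (lift hG (MonoidHom.id G)) = MonoidHom.id (Rat G) := by
    apply hom_ext isLocal
    ext x; rfl
  exact ⟨fun x y h => by
    have := congrArg (lift hG (MonoidHom.id G)) h
    exact this, fun x => ⟨lift hG (MonoidHom.id G) x, DFunLike.congr_fun h2 x⟩⟩

end Rat

/-- `1 → N → E → G → 1` is a short exact sequence of groups. -/
structure ShortExact {N E G : Type u} [Group N] [Group E] [Group G] (i : N →* E) (π : E →* G) :
    Prop where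
  injective : Function.Injective i
  exact : i.range = π.ker
  surjective : Function.Surjective π

/-- The sequence `N → E → G` is `L`-flat: `1 → L N → L E → L G → 1` is short exact. -/
def IsLFlat {N E G : Type u} [Group N] [Group E] [Group G] (i : N →* E) (π : E →* G) : Prop :=
  ShortExact (Rat.map i) (Rat.map π)

/-- The pullback `E ×_G H`. -/
def Pullback {E G H : Type u} [Group E] [Group G] [Group H] (π : E →* G) (α : H →* G) :
    Subgroup (E × H) :=
  (π.comp (MonoidHom.fst E H)).eqLocus (α.comp (MonoidHom.snd E H))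

/-- The homomorphism `N → E ×_G H`, `n ↦ (i n, 1)`. -/
def pullbackIncl {N E G H : Type u} [Group N] [Group E] [Group G] [Group H] {i : N →* E}
    {π : E →* G} (h : ShortExact i π) (α : H →* G) : N →* Pullback π α :=
  ((MonoidHom.inl E H).comp i).codRestrict _ fun n => by
    have h1 : i n ∈ π.ker := h.exact ▸ ⟨n, rfl⟩
    change π (i n) = α 1
    rw [map_one]; exact h1

/-- The projection `E ×_G H → H`. -/
def pullbackProj {E G H : Type u} [Group E] [Group G] [Group H] (π : E →* G) (α : H →* G) :
    Pullback π α →* H :=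
  (MonoidHom.snd E H).comp (Pullback π α).subtype

/-- Rationalization is conditionally flat: for each `L`-flat extension `1 → N → E → G → 1` and each
homomorphism `α : H → G` the extension `1 → N → E ×_G H → H → 1` is `L`-flat. -/
def ConditionallyFlat : Prop :=
  ∀ (N E G H : Type u) [Group N] [Group E] [Group G] [Group H] (i : N →* E) (π : E →* G)
    (h : ShortExact i π), IsLFlat i π → ∀ α : H →* G,
      IsLFlat (pullbackIncl h α) (pullbackProj π α)

/-- The set `ℂ × ℚ` with the product `(z, q) (w, r) = (z + exp (q c) w, q + r)`. -/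
@[ext] structure Aff (c : ℂ) : Type where
  z : ℂ
  q : ℚ

namespace Aff

variable {c : ℂ}

noncomputable instance : Group (Aff c) where
  mul x y := ⟨x.z + Complex.exp (x.q * c) * y.z, x.q + y.q⟩
  one := ⟨0, 0⟩
  inv x := ⟨-(Complex.exp (-(x.q * c)) * x.z), -x.q⟩
  mul_assoc x y w := by
    ext
    · change x.z + Complex.exp (x.q * c) * y.z + Complex.exp (((x.q + y.q : ℚ) : ℂ) * c) * w.z =
        x.z + Complex.exp (x.q * c) * (y.z + Complex.exp (y.q * c) * w.z)
      push_cast
      rw [add_mul, Complex.exp_add]; ring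
    · exact add_assoc _ _ _
  one_mul x := by
    ext
    · change 0 + Complex.exp (((0 : ℚ) : ℂ) * c) * x.z = x.z
      simp
    · exact zero_add _
  mul_one x := by
    ext
    · change x.z + Complex.exp (x.q * c) * 0 = x.z
      simp
    · exact add_zero _
  inv_mul_cancel x := by
    ext
    · change -(Complex.exp (-(x.q * c)) * x.z) + Complex.exp (((-x.q : ℚ) : ℂ) * c) * x.z = 0
      push_cast
      rw [neg_mul]; ring
    · exact neg_add_cancel _

theorem mul_z (x y : Aff c) : (x * y).z = x.z + Complex.exp (x.q * c) * y.z := rfl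
theorem mul_q (x y : Aff c) : (x * y).q = x.q + y.q := rfl
theorem one_z : (1 : Aff c).z = 0 := rfl
theorem one_q : (1 : Aff c).q = 0 := rfl

theorem pow_q (x : Aff c) (n : ℕ) : (x ^ n).q = n * x.q := by
  induction n with
  | zero => simp [one_q]
  | succ n ih => rw [pow_succ, mul_q, ih]; push_cast; ring

theorem pow_z (x : Aff c) (n : ℕ) :
    (x ^ n).z = (∑ k ∈ Finset.range n, Complex.exp (x.q * c) ^ k) * x.z := by
  induction n with
  | zero => simp [one_z]
  | succ n ih =>
    rw [pow_succ, mul_z, ih, pow_q, Finset.sum_range_succ, add_mul, ← Complex.exp_nat_mul]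
    push_cast
    ring_nf

theorem geom_ne_zero (hc : c.re ≠ 0) (q : ℚ) {p : ℕ} (hp : p.Prime) :
    (∑ k ∈ Finset.range p, Complex.exp (q * c) ^ k) ≠ 0 := by
  intro h
  have h1 : Complex.exp (q * c) ^ p = 1 := by
    have := geom_sum_mul (Complex.exp (q * c)) p
    rw [h, zero_mul] at this
    exact (sub_eq_zero.1 this.symm)
  have h2 : ‖Complex.exp (q * c)‖ = 1 := by
    have h3 := congrArg norm h1
    rw [norm_pow, norm_one] at h3
    exact (pow_eq_one_iff_of_nonneg (norm_nonneg _) hp.ne_zero).1 h3
  rw [Complex.norm_exp, Real.exp_eq_one_iff] at h2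
  have h3 : ((q : ℂ) * c).re = (q : ℝ) * c.re := by
    rw [Complex.mul_re]; simp
  rw [h3] at h2
  have h4 : (q : ℝ) = 0 := by
    rcases mul_eq_zero.1 h2 with h | h
    · exact h
    · exact absurd h hc
  have h5 : q = 0 := by exact_mod_cast h4
  rw [h5] at h
  simp at h
  exact hp.ne_zero h

/-- `Aff c` is local if the real part of `c` is not zero. -/
theorem isLocal (hc : c.re ≠ 0) : IsLocal (Aff c) := by
  intro p hp
  have hp0 : (p : ℚ) ≠ 0 := by exact_mod_cast hp.ne_zero
  constructor
  · intro x y h
    have h1 := congrArg Aff.q h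
    have h2 := congrArg Aff.z h
    simp only [pow_q, pow_z] at h1 h2
    have h3 : x.q = y.q := mul_left_cancel₀ hp0 h1
    rw [h3] at h2
    exact Aff.ext (mul_left_cancel₀ (geom_ne_zero hc _ hp) h2) h3
  · intro y
    refine ⟨⟨(∑ k ∈ Finset.range p, Complex.exp (((y.q / p : ℚ) : ℂ) * c) ^ k)⁻¹ * y.z,
      y.q / p⟩, ?_⟩
    apply Aff.ext
    · change ((_ : Aff c) ^ p).z = _
      rw [pow_z, mul_inv_cancel_left₀ (geom_ne_zero hc _ hp)]
    · change ((_ : Aff c) ^ p).q = _
      rw [pow_q]
      change (p : ℚ) * (y.q / p) = y.q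
      field_simp

/-- The inclusion of `ℂ`. -/
noncomputable def incl (c : ℂ) : Multiplicative ℂ →* Aff c :=
  MonoidHom.mk' (fun z => ⟨z.toAdd, 0⟩) fun z w => by
    ext
    · change z.toAdd + w.toAdd = z.toAdd + Complex.exp (((0 : ℚ) : ℂ) * c) * w.toAdd
      simp
    · exact (add_zero _).symm

/-- The projection to `ℚ`. -/
noncomputable def proj (c : ℂ) : Aff c →* Multiplicative ℚ :=
  MonoidHom.mk' (fun x => Multiplicative.ofAdd x.q) fun _ _ => rfl

theorem shortExact (c : ℂ) : ShortExact (incl c) (proj c) where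
  injective z w h := congrArg (fun x : Aff c => Multiplicative.ofAdd x.z) h
  exact := by
    ext x
    constructor
    · rintro ⟨z, rfl⟩; rfl
    · intro hx
      have h1 : x.q = 0 := congrArg Multiplicative.toAdd hx
      exact ⟨Multiplicative.ofAdd x.z, Aff.ext rfl h1.symm⟩
  surjective q := ⟨⟨0, q.toAdd⟩, rfl⟩

end Aff

theorem isLocal_C : IsLocal (Multiplicative ℂ) := by
  intro p hp
  have hp0 : (p : ℂ) ≠ 0 := by exact_mod_cast hp.ne_zero
  constructor
  · intro x y h
    have h1 : (p : ℂ) * x.toAdd = p * y.toAdd := by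
      have := congrArg Multiplicative.toAdd h
      simpa [toAdd_pow] using this
    exact Multiplicative.toAdd.injective (mul_left_cancel₀ hp0 h1)
  · intro y
    refine ⟨Multiplicative.ofAdd (y.toAdd / p), ?_⟩
    apply Multiplicative.toAdd.injective
    change Multiplicative.toAdd ((Multiplicative.ofAdd (y.toAdd / p)) ^ p) = _
    rw [toAdd_pow, toAdd_ofAdd, nsmul_eq_mul]
    field_simp

theorem isLocal_Q : IsLocal (Multiplicative ℚ) := by
  intro p hp
  have hp0 : (p : ℚ) ≠ 0 := by exact_mod_cast hp.ne_zero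
  constructor
  · intro x y h
    have h1 : (p : ℚ) * x.toAdd = p * y.toAdd := by
      have := congrArg Multiplicative.toAdd h
      simpa [toAdd_pow] using this
    exact Multiplicative.toAdd.injective (mul_left_cancel₀ hp0 h1)
  · intro y
    refine ⟨Multiplicative.ofAdd (y.toAdd / p), ?_⟩
    apply Multiplicative.toAdd.injective
    change Multiplicative.toAdd ((Multiplicative.ofAdd (y.toAdd / p)) ^ p) = _
    rw [toAdd_pow, toAdd_ofAdd, nsmul_eq_mul]
    field_simp

/-- An extension of local groups is flat. -/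
theorem isLFlat_of_isLocal {N E G : Type u} [Group N] [Group E] [Group G] {i : N →* E}
    {π : E →* G} (h : ShortExact i π) (hN : IsLocal N) (hE : IsLocal E) (hG : IsLocal G) :
    IsLFlat i π where
  injective x y hxy := by
    obtain ⟨a, rfl⟩ := (Rat.of_bijective hN).2 x
    obtain ⟨b, rfl⟩ := (Rat.of_bijective hN).2 y
    rw [Rat.map_of, Rat.map_of] at hxy
    rw [h.injective ((Rat.of_bijective hE).1 hxy)]
  exact := by
    ext x
    obtain ⟨e, rfl⟩ := (Rat.of_bijective hE).2 x
    constructor
    · rintro ⟨y, hy⟩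
      obtain ⟨a, rfl⟩ := (Rat.of_bijective hN).2 y
      rw [Rat.map_of] at hy
      have h1 : i a = e := (Rat.of_bijective hE).1 hy
      have h2 : i a ∈ π.ker := h.exact ▸ ⟨a, rfl⟩
      rw [MonoidHom.mem_ker, Rat.map_of, ← h1, MonoidHom.mem_ker.1 h2, map_one]
    · intro hx
      rw [MonoidHom.mem_ker, Rat.map_of] at hx
      have h1 : π e = 1 := (Rat.of_bijective hG).1 (by rw [hx, map_one])
      have h2 : e ∈ i.range := by rw [h.exact]; exact h1
      obtain ⟨a, rfl⟩ := h2
      exact ⟨Rat.of a, rfl⟩
  surjective x := by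
    obtain ⟨g, rfl⟩ := (Rat.of_bijective hG).2 x
    obtain ⟨e, rfl⟩ := h.surjective g
    exact ⟨Rat.of e, rfl⟩

/-- `log 2`. -/
noncomputable def c₁ : ℂ := (Real.log 2 : ℝ)

/-- `log 2 + 2 π i`. -/
noncomputable def c₂ : ℂ := (Real.log 2 : ℝ) + 2 * Real.pi * Complex.I

theorem c₁_re : c₁.re ≠ 0 := by
  rw [c₁, Complex.ofReal_re]
  exact (Real.log_pos one_lt_two).ne'

theorem c₂_re : c₂.re ≠ 0 := by
  have : c₂.re = Real.log 2 := by
    rw [c₂, Complex.add_re, Complex.ofReal_re]; simp
  rw [this]
  exact (Real.log_pos one_lt_two).ne'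

theorem exp_int (m : ℤ) : Complex.exp (m * c₂) = Complex.exp (m * c₁) := by
  rw [c₂, mul_add, Complex.exp_add, Complex.exp_int_mul_two_pi_mul_I, mul_one, c₁]

/-- The inclusion `ℤ → ℚ`. -/
def α : Multiplicative ℤ →* Multiplicative ℚ := AddMonoidHom.toMultiplicative (Int.castAddHom ℚ)

/-- The pullback `ℂ ⋊ ℤ`. -/
noncomputable abbrev P : Subgroup (Aff c₁ × Multiplicative ℤ) := Pullback (Aff.proj c₁) α

theorem P_q (x : P) : x.1.1.q = ((x.1.2.toAdd : ℤ) : ℚ) := congrArg Multiplicative.toAdd x.2

/-- The homomorphism from the pullback to `Aff c₁`. -/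
noncomputable def ψ : P →* Aff c₁ := (MonoidHom.fst _ _).comp P.subtype

/-- The homomorphism from the pullback to `Aff c₂`. -/
noncomputable def θ : P →* Aff c₂ :=
  MonoidHom.mk' (fun x => ⟨x.1.1.z, x.1.1.q⟩) fun x y => by
    ext
    · change x.1.1.z + Complex.exp (x.1.1.q * c₁) * y.1.1.z =
        x.1.1.z + Complex.exp (x.1.1.q * c₂) * y.1.1.z
      rw [P_q x]
      push_cast
      rw [exp_int]
    · rfl

/-- Rationalization of groups is not conditionally flat. -/
theorem result : ¬ ConditionallyFlat.{0} := by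
  intro H
  have hflat := isLFlat_of_isLocal (Aff.shortExact c₁) isLocal_C (Aff.isLocal c₁_re) isLocal_Q
  have h := H _ _ _ _ _ _ (Aff.shortExact c₁) hflat α
  -- the element `t = ((0, 1), 1)` and its square root
  let t : P := ⟨(⟨0, 1⟩, Multiplicative.ofAdd 1), by
    change Multiplicative.ofAdd (1 : ℚ) = α (Multiplicative.ofAdd 1)
    simp [α]⟩
  let s : Rat P := Rat.root ⟨2, Nat.prime_two⟩ (Rat.of t)
  have hs : s ^ 2 = Rat.of t := Rat.root_pow ⟨2, Nat.prime_two⟩ (Rat.of t)
  let j := pullbackIncl (Aff.shortExact c₁) α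
  -- conjugation by `s` preserves the image of `Rat ℂ`
  have hn : s * Rat.map j (Rat.of (Multiplicative.ofAdd 1)) * s⁻¹ ∈ (Rat.map j).range := by
    rw [h.exact]
    exact (MonoidHom.normal_ker _).conj_mem _ (h.exact ▸ ⟨_, rfl⟩) s
  obtain ⟨y, hy⟩ := hn
  obtain ⟨n, rfl⟩ := (Rat.of_bijective isLocal_C).2 y
  rw [Rat.map_of, Rat.map_of] at hy
  have key : ∀ (c : ℂ) (hc : c.re ≠ 0) (f : P →* Aff c),
      f t = ⟨0, 1⟩ → (∀ m, f (j m) = ⟨m.toAdd, 0⟩) →
        n.toAdd = Complex.exp (((1 / 2 : ℚ) : ℂ) * c) := by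
    intro c hc f hft hfj
    have hF : Rat.lift (Aff.isLocal hc) f s = ⟨0, 1 / 2⟩ := by
      apply (Aff.isLocal hc 2 Nat.prime_two).1
      change (Rat.lift (Aff.isLocal hc) f s) ^ 2 = (⟨0, 1 / 2⟩ : Aff c) ^ 2
      rw [← map_pow, hs, Rat.lift_of, hft]
      ext
      · rw [Aff.pow_z]; simp
      · rw [Aff.pow_q]; norm_num
    have h1 := congrArg (Rat.lift (Aff.isLocal hc) f) hy
    rw [map_mul, map_mul, map_inv, Rat.lift_of, Rat.lift_of, hF, hfj, hfj] at h1
    rw [eq_mul_inv_iff_mul_eq] at h1
    have h2 := congrArg Aff.z h1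
    rw [Aff.mul_z, Aff.mul_z] at h2
    simpa using h2
  have k1 := key c₁ c₁_re ψ rfl fun m => rfl
  have k2 := key c₂ c₂_re θ rfl fun m => rfl
  rw [k1] at k2
  have e : ((1 / 2 : ℚ) : ℂ) * c₂ = ((1 / 2 : ℚ) : ℂ) * c₁ + Real.pi * Complex.I := by
    rw [c₁, c₂]; push_cast; ring
  rw [e, Complex.exp_add, Complex.exp_pi_mul_I] at k2
  have h3 := Complex.exp_ne_zero (((1 / 2 : ℚ) : ℂ) * c₁)
  apply h3
  linear_combination (1 / 2) * k2

end Pool.Agent.Results.MP_a437dc_al.NotConditionallyFlat
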